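import Pool.Agent.H18.HIT.Targets

/-!
# A homogeneous map without homogeneous invariant functions
-/

open MvPolynomial
open Pool.Agent.H12.ZD (pmap v O Res DenseOrbit NoInv)
open Pool.Agent.H18.HIT

namespace Pool.Agent.H55.HIT

section

variable {N : ℕ} {k : Type} [Field k]

theorem sum_hc {p : Po N k} {a : ℕ} (h : p.totalDegree ≤ a) :
    ∑ i ∈ Finset.range (a + 1), homogeneousComponent i p = p := by
  have h1 := sum_homogeneousComponent p
  have h2 : ∑ i ∈ Finset.range (p.totalDegree + 1), homogeneousComponent i p =
      ∑ i ∈ Finset.range (a + 1), homogeneousComponent i p := by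
    apply Finset.sum_subset
    · intro i hi
      rw [Finset.mem_range] at hi ⊢
      omega
    · intro i _ hi
      apply homogeneousComponent_eq_zero
      rw [Finset.mem_range] at hi
      omega
  rw [← h2, h1]

theorem hc_mul {A B : Po N k} {a b : ℕ} (hA : A.totalDegree ≤ a) (hB : B.totalDegree ≤ b) :
    homogeneousComponent (a + b) (A * B) =
      homogeneousComponent a A * homogeneousComponent b B := by
  conv_lhs => rw [← sum_hc hA, ← sum_hc hB, Finset.sum_mul_sum, map_sum]
  rw [Finset.sum_eq_single a]
  · rw [map_sum, Finset.sum_eq_single b]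
    · rw [homogeneousComponent_of_mem (n := a + b)
        ((homogeneousComponent_isHomogeneous a A).mul (homogeneousComponent_isHomogeneous b B)),
        if_pos rfl]
    · intro j hj hjb
      rw [homogeneousComponent_of_mem (n := a + j)
        ((homogeneousComponent_isHomogeneous a A).mul (homogeneousComponent_isHomogeneous j B)),
        if_neg (by omega)]
    · intro hb
      exact absurd (Finset.mem_range.2 (Nat.lt_succ_self b)) hb
  · intro i hi hia
    rw [map_sum]
    apply Finset.sum_eq_zero
    intro j hj
    rw [Finset.mem_range] at hi hj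
    rw [homogeneousComponent_of_mem (n := i + j)
      ((homogeneousComponent_isHomogeneous i A).mul (homogeneousComponent_isHomogeneous j B)),
      if_neg (by omega)]
  · intro ha
    exact absurd (Finset.mem_range.2 (Nat.lt_succ_self a)) ha

theorem hc_aeval {F : Tup N k} {d : ℕ} (hd : 1 ≤ d) (hF : ∀ i, (F i).IsHomogeneous d)
    {p : Po N k} {m : ℕ} (hm : p.totalDegree ≤ m) :
    homogeneousComponent (d * m) (aeval F p) = aeval F (homogeneousComponent m p) := by
  conv_lhs => rw [← sum_hc hm, map_sum, map_sum]
  rw [Finset.sum_eq_single m]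
  · rw [homogeneousComponent_of_mem (n := d * m)
      ((homogeneousComponent_isHomogeneous m p).aeval F hF), if_pos rfl]
  · intro i hi him
    rw [homogeneousComponent_of_mem (n := d * i)
      ((homogeneousComponent_isHomogeneous i p).aeval F hF), if_neg]
    intro h
    exact him (Nat.eq_of_mul_eq_mul_left hd h).symm
  · intro ha
    exact absurd (Finset.mem_range.2 (Nat.lt_succ_self m)) ha

theorem hc_top_ne {p : Po N k} (hp : p ≠ 0) : homogeneousComponent p.totalDegree p ≠ 0 := by
  intro h
  rcases Nat.eq_zero_or_pos p.totalDegree with h0 | h0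
  · have h1 := sum_homogeneousComponent p
    rw [h0, Finset.sum_range_one] at h1
    rw [h0] at h
    exact hp (h1.symm.trans h)
  · have h1 := sum_homogeneousComponent p
    rw [Finset.sum_range_succ, h, add_zero] at h1
    have h2 : p.totalDegree ≤ p.totalDegree - 1 := by
      conv_lhs => rw [← h1]
      apply totalDegree_finsetSum_le
      intro i hi
      rw [Finset.mem_range] at hi
      exact ((homogeneousComponent_isHomogeneous i p).totalDegree_le).trans (by omega)
    omega

theorem deg_aeval {F : Tup N k} {d : ℕ} (hd : 1 ≤ d) (hF : ∀ i, (F i).IsHomogeneous d)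
    (hi : Function.Injective (aeval F : Po N k →ₐ[k] Po N k)) {p : Po N k} (hp : p ≠ 0) :
    (aeval F p).totalDegree = d * p.totalDegree := by
  apply le_antisymm
  · rw [mul_comm]
    exact totalDegree_aeval_le F d (fun i => (hF i).totalDegree_le) p
  · by_contra h
    have h1 := homogeneousComponent_eq_zero _ _ (not_le.mp h)
    rw [hc_aeval hd hF le_rfl] at h1
    exact hc_top_ne hp (hi (by rw [h1, map_zero]))

theorem step1 {F : Tup N k} {d : ℕ} (hd : 2 ≤ d) (hF : ∀ i, (F i).IsHomogeneous d)
    (hi : Function.Injective (aeval F : Po N k →ₐ[k] Po N k)) {p q : Po N k} (hp : p ≠ 0)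
    (hq : q ≠ 0) (h : aeval F p * q = aeval F q * p) : p.totalDegree = q.totalDegree ∧
    aeval F (homogeneousComponent p.totalDegree p) * homogeneousComponent q.totalDegree q =
      aeval F (homogeneousComponent q.totalDegree q) * homogeneousComponent p.totalDegree p := by
  have hp' : aeval F p ≠ 0 := fun h0 => hp (hi (by rw [h0, map_zero]))
  have hq' : aeval F q ≠ 0 := fun h0 => hq (hi (by rw [h0, map_zero]))
  have e1 := congrArg totalDegree h
  rw [totalDegree_mul_of_isDomain hp' hq, totalDegree_mul_of_isDomain hq' hp,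
    deg_aeval (by omega) hF hi hp, deg_aeval (by omega) hF hi hq] at e1
  have e2 : p.totalDegree = q.totalDegree := by
    obtain ⟨c, rfl⟩ : ∃ c, d = c + 2 := ⟨d - 2, by omega⟩
    have e3 : (c + 1) * p.totalDegree = (c + 1) * q.totalDegree := by nlinarith
    exact Nat.eq_of_mul_eq_mul_left (by omega) e3
  refine ⟨e2, ?_⟩
  rw [e2]
  have e4 := congrArg (homogeneousComponent (d * q.totalDegree + q.totalDegree)) h
  rw [hc_mul (a := d * q.totalDegree) (b := q.totalDegree)
      (by rw [deg_aeval (by omega) hF hi hp, e2]) le_rfl,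
    hc_mul (a := d * q.totalDegree) (b := q.totalDegree)
      (by rw [deg_aeval (by omega) hF hi hq]) (by rw [e2]),
    hc_aeval (by omega) hF (by rw [e2]), hc_aeval (by omega) hF le_rfl] at e4
  exact e4

end

theorem pf_PNI : T_PNI := by
  intro N k _ F d hd hF hi hH
  rintro ⟨p, q, hq, hpq, h⟩
  have hp : p ≠ 0 := by
    intro h0
    apply hpq 0
    rw [h0, C_0, zero_mul]
  obtain ⟨e1, e2⟩ := step1 hd hF hi hp hq h
  obtain ⟨c, hc⟩ := hH p.totalDegree _ _ (homogeneousComponent_isHomogeneous _ p)
    (by rw [e1]; exact homogeneousComponent_isHomogeneous _ q) (hc_top_ne hq) e2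
  have hp' : p - C c * q ≠ 0 := sub_ne_zero.2 (hpq c)
  have h' : aeval F (p - C c * q) * q = aeval F q * (p - C c * q) := by
    rw [map_sub, map_mul, algHom_C, algebraMap_eq, sub_mul, h]
    ring
  obtain ⟨e3, -⟩ := step1 hd hF hi hp' hq h'
  apply hc_top_ne hp'
  rw [e3, map_sub, homogeneousComponent_C_mul, ← hc, ← e1, sub_self]

end Pool.Agent.H55.HIT
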